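import Pool.Agent.Helper21.UV4.Model

/-!
# Threshold circuits with unbounded weights and unbounded fan-in: the voters

`IsFree`: the voters that ignore the weights of one of the three sides. `IsSides`: decision trees
with any number of probes, priced by the numbers of probes in the three sides. `Price5`: the price
of a voter. The other voters are defined in `Helper21/UV4/Model.lean` (`IsBatch`, `IsPool`) and in
`Helper8/UV/Defs.lean` (`IsJunta`).
-/

set_option autoImplicit false

namespace Pool.Agent.Helper53.TC5

open Pool.Agent.Helper22.ETModel Pool.Agent.Helper8.VT Pool.Agent.Helper8.UV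
open Pool.Agent.Helper21.UV4

/-- The cell `u v` lies between the classes `p` and `q` (the residues modulo 3). -/
def Side {n : ℕ} (p q : ℕ) (u v : Fin n) : Prop :=
  ((u : ℕ) % 3 = p ∧ (v : ℕ) % 3 = q) ∨ ((u : ℕ) % 3 = q ∧ (v : ℕ) % 3 = p)

instance {n : ℕ} (p q : ℕ) (u v : Fin n) : Decidable (Side p q u v) := by
  unfold Side; infer_instance

/-- The weights with the side `pq` filled with zeros. -/
def hide {n : ℕ} (p q : ℕ) (w : Wts n) : Wts n := fun u v => if Side p q u v then 0 else w u v

/-- `H` ignores the weights of one of the three sides: it is an arbitrary real function of the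
flags and of all the other weights. -/
def IsFree {n : ℕ} (H : Inst n → ℝ) : Prop :=
  ∃ p q : ℕ, p < q ∧ q < 3 ∧ ∃ F : Flags n → Wts n → ℝ, ∀ I : Inst n, I.Valid →
    H I = F I.flag (hide p q I.wt)

/-- The number of probes of weights between the classes `p` and `q` on the path of `w`. -/
def probes {n : ℕ} (p q : ℕ) : {d : ℕ} → Tree n d → Wts n → ℕ
  | _, .leaf _, _ => 0
  | _, .node i j next, w => probes p q (next (w i j)) w + if Side p q i j then 1 else 0

/-- `H` is computed by decision trees of any depth, which know the flags, with at most `a`, `b`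
and `c` probes of weights of the sides `01`, `12` and `02` on every path. -/
def IsSides {n : ℕ} (a b c : ℕ) (H : Inst n → ℝ) : Prop :=
  ∃ (d : ℕ) (t : Flags n → Tree n d), ∀ I : Inst n, I.Valid → H I = (t I.flag).eval I.wt ∧
    probes 0 1 (t I.flag) I.wt ≤ a ∧ probes 1 2 (t I.flag) I.wt ≤ b ∧
    probes 0 2 (t I.flag) I.wt ≤ c

/-- The smallest of the numbers `√(a b c)`, `a b`, `b c`, `a c`, `n a`, `n b`, `n c`. (Each of them
bounds the number of triangles with `a`, `b` and `c` edges in the three sides.) -/
noncomputable def tri (n a b c : ℕ) : ℝ :=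
  min (Real.sqrt (a * b * c)) (min (min ((a : ℝ) * b) (min ((b : ℝ) * c) ((a : ℝ) * c)))
    (n * min (a : ℝ) (min (b : ℝ) (c : ℝ))))

/-- `κ` is the price of the voter `H`: `0` for a voter that ignores one of the three sides,
`tri n a b c` for a decision tree of any depth with `a`, `b`, `c` probes in the three sides, and
otherwise as follows. The price is
`(B + D) ^ (3/2)` for a decision tree with `B` probes, `D` sign queries on every path, and at most
`2 ^ (s * (log n + 1))` sign queries left in the whole tree on fixing one result at each probe node,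
`(B + (s + 3) * (log n + 1) * D) ^ (3/2)` for a decision tree with `B` probes, `D` sign queries and
at most `2 ^ (s * (log n + 1))` different ones, `√k * W` for a function of `k` additive threshold
gates with `W` wires. -/
def Price5 {n : ℕ} (d s : ℕ) (H : Inst n → ℝ) (κ : ℝ) : Prop :=
  (κ = 0 ∧ IsFree H) ∨
    (∃ a b c : ℕ, IsSides a b c H ∧ κ = tri n a b c) ∨
    (∃ B D : ℕ, 1 ≤ B + D ∧ IsBatch d B D (2 ^ (s * (Nat.log 2 n + 1))) H ∧
      κ = ((B + D : ℕ) : ℝ) ^ (3 / 2 : ℝ)) ∨
    (∃ B D : ℕ, 1 ≤ B + D ∧ IsPool d B D (2 ^ (s * (Nat.log 2 n + 1))) H ∧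
      κ = ((B + (s + 3) * (Nat.log 2 n + 1) * D : ℕ) : ℝ) ^ (3 / 2 : ℝ)) ∨
    ∃ k W : ℕ, 1 ≤ k ∧ 1 ≤ W ∧ IsJunta k W H ∧ κ = Real.sqrt k * W

end Pool.Agent.Helper53.TC5
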