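import Pool.Agent.Helper53.TC5.Cap5

/-!
# Threshold circuits with unbounded weights and unbounded fan-in: the lower bound
-/

set_option autoImplicit false
set_option linter.unusedSectionVars false

open Finset
open scoped BigOperators

namespace Pool.Agent.Helper53.TC5

open Pool.Agent.Helper22.ETModel Pool.Agent.Helper8.VT Pool.Agent.Helper8.UV
open Pool.Agent.Helper21.UV Pool.Agent.Helper21.UV3 Pool.Agent.Helper21.UV4

theorem price5_nonneg {n d s : ℕ} (H : Inst n → ℝ) (κ : ℝ) (h : Price5 d s H κ) : 0 ≤ κ := by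
  rcases h with ⟨rfl, _⟩ | ⟨a, b, c, _, rfl⟩ | h
  · exact le_refl 0
  · have ha : (0 : ℝ) ≤ a := Nat.cast_nonneg _
    have hb : (0 : ℝ) ≤ b := Nat.cast_nonneg _
    have hc : (0 : ℝ) ≤ c := Nat.cast_nonneg _
    exact le_min (Real.sqrt_nonneg _) (le_min (le_min (mul_nonneg ha hb)
      (le_min (mul_nonneg hb hc) (mul_nonneg ha hc)))
      (mul_nonneg (Nat.cast_nonneg _) (le_min ha (le_min hb hc))))
  · exact price4_nonneg H κ (Or.inr h)

/-- A voter with a price below `1` ignores a side. -/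
theorem ign_of_price5 {n d s : ℕ} (hn : 1 ≤ n) (H : Inst n → ℝ) (κ : ℝ) (h : Price5 d s H κ)
    (hκ : κ < 1) : Ign H := by
  rcases h with ⟨rfl, h⟩ | ⟨a, b, c, h, rfl⟩ | ⟨B, D, hB, _, rfl⟩ | ⟨B, D, hB, _, rfl⟩ |
    ⟨k, W, hk, hW, _, rfl⟩
  · exact ign_of_free H h
  · refine ign_of_sides a b c H h ?_
    by_contra hcon
    push Not at hcon
    have ha : 1 ≤ a := Nat.one_le_iff_ne_zero.2 hcon.1
    have hb : 1 ≤ b := Nat.one_le_iff_ne_zero.2 hcon.2.1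
    have hc : 1 ≤ c := Nat.one_le_iff_ne_zero.2 hcon.2.2
    have ha' : (1 : ℝ) ≤ a := by exact_mod_cast ha
    have hb' : (1 : ℝ) ≤ b := by exact_mod_cast hb
    have hc' : (1 : ℝ) ≤ c := by exact_mod_cast hc
    have hn' : (1 : ℝ) ≤ n := by exact_mod_cast hn
    have h1 : (1 : ℝ) ≤ (a : ℝ) * b * c := by
      have h2 : (1 : ℝ) ≤ (a : ℝ) * b := one_le_mul_of_one_le_of_one_le ha' hb'
      exact one_le_mul_of_one_le_of_one_le h2 hc'
    have h3 : (1 : ℝ) ≤ tri n a b c :=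
      le_min (Real.one_le_sqrt.2 h1) (le_min (le_min (one_le_mul_of_one_le_of_one_le ha' hb')
        (le_min (one_le_mul_of_one_le_of_one_le hb' hc')
          (one_le_mul_of_one_le_of_one_le ha' hc')))
        (one_le_mul_of_one_le_of_one_le hn' (le_min ha' (le_min hb' hc'))))
    linarith
  · exfalso
    have : (1 : ℝ) ≤ ((B + D : ℕ) : ℝ) ^ (3 / 2 : ℝ) :=
      Real.one_le_rpow (by exact_mod_cast hB) (by norm_num)
    linarith
  · exfalso
    have : (1 : ℝ) ≤ ((B + (s + 3) * (Nat.log 2 n + 1) * D : ℕ) : ℝ) ^ (3 / 2 : ℝ) := by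
      refine Real.one_le_rpow ?_ (by norm_num)
      have := hB.trans (one_le_pool (s := s) (L := Nat.log 2 n + 1) (D := D) (by omega))
      exact_mod_cast this
    linarith
  · exfalso
    have h1 : (1 : ℝ) ≤ Real.sqrt k := by
      rw [Real.one_le_sqrt]
      exact_mod_cast hk
    have h2 : (1 : ℝ) ≤ W := by exact_mod_cast hW
    nlinarith

/-- The capacity of a voter, averaged over the macroscopic parts. -/
theorem cap_price5 {n : ℕ} (hn : 2048 ≤ n) [NeZero (n ^ 3)] (d s : ℕ) (hd : 1 ≤ d)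
    (hs : (s + 6) * d ^ 2 ≤ 270) (H : Inst n → ℝ) (κ : ℝ) (hκ : Price5 d s H κ) :
    ∑ μ : Key (n / 9) → Fin (10 * n ^ 299),
      cap (GM (mkM (m := n / 9) (q := n ^ 3) n (n ^ 299) μ) H) ≤
      (10 * (n ^ 299 : ℕ) : ℝ) ^ Fintype.card (Key (n / 9)) *
        (2 ^ 13 * 100 ^ d * (n / 9 : ℕ) * κ) := by
  have h0 := price5_nonneg H κ hκ
  have hv := val_room n hn
  have hval : ∀ (μ : Key (n / 9) → Fin (10 * n ^ 299)) (X Y Z : Cfg (n / 9) (n ^ 3)),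
      (mkM n (n ^ 299) μ X Y Z).Valid := fun μ X Y Z => mkM_valid hv μ X Y Z
  have hcard : (Fintype.card (Key (n / 9) → Fin (10 * n ^ 299)) : ℝ) =
      (10 * (n ^ 299 : ℕ) : ℝ) ^ Fintype.card (Key (n / 9)) := by
    rw [Fintype.card_fun, Fintype.card_fin, Nat.cast_pow, Nat.cast_mul]
    norm_num
  have h100 : (1 : ℝ) ≤ 100 ^ d := one_le_pow₀ (by norm_num)
  have hm0 : (0 : ℝ) ≤ ((n / 9 : ℕ) : ℝ) := Nat.cast_nonneg _
  rcases hκ with ⟨rfl, hF⟩ | ⟨a, b, c, hS, rfl⟩ | h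
  · have h1 : ∀ μ : Key (n / 9) → Fin (10 * n ^ 299),
        cap (GM (mkM (m := n / 9) (q := n ^ 3) n (n ^ 299) μ) H) = 0 := fun μ =>
      ign_cap _ _ (hval μ) H (ign_of_free H hF)
    simp only [h1, Finset.sum_const_zero, mul_zero, le_refl]
  · rw [← hcard]
    have h1 : ∀ μ : Key (n / 9) → Fin (10 * n ^ 299),
        cap (GM (mkM (m := n / 9) (q := n ^ 3) n (n ^ 299) μ) H) ≤
          192 * ((n / 9 : ℕ) : ℝ) * tri n a b c := fun μ =>
      sides_cap _ _ (Nat.div_le_self n 9) (hval μ) H a b c hS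
    refine (Finset.sum_le_sum fun μ _ => h1 μ).trans ?_
    rw [Finset.sum_const, Finset.card_univ, nsmul_eq_mul]
    refine mul_le_mul_of_nonneg_left ?_ (Nat.cast_nonneg _)
    set κ := tri n a b c with hκ
    have h2 : 0 ≤ ((n / 9 : ℕ) : ℝ) * κ := mul_nonneg hm0 h0
    have h3 : (192 : ℝ) ≤ 2 ^ 13 * 100 ^ d := by linarith
    calc 192 * ((n / 9 : ℕ) : ℝ) * κ = 192 * (((n / 9 : ℕ) : ℝ) * κ) := by ring
      _ ≤ (2 ^ 13 * 100 ^ d) * (((n / 9 : ℕ) : ℝ) * κ) := mul_le_mul_of_nonneg_right h3 h2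
      _ = _ := by ring
  · exact cap_price4 hn d s hd hs H κ (Or.inr h)

/-- The lower bound. -/
theorem lower5
    (small : ∀ (n : ℕ), 4 ≤ n → ∀ (Ω ι : Type) [Fintype Ω] [Nonempty Ω] [Fintype ι]
      (H : Ω → ι → Inst n → ℝ) (κ : Ω → ι → ℝ), (∀ ω r, 0 ≤ κ ω r) →
      (∀ ω r, κ ω r < 1 → Ign (H ω r)) →
      (∀ I : Inst n, I.Valid → Tripartite I → Decides H I) →
      (Fintype.card Ω : ℝ) / 5 ≤ ∑ ω, ∑ r, κ ω r)
    (n d s : ℕ) (hn : 4 ≤ n) (hd : 1 ≤ d) (hs : (s + 6) * d ^ 2 ≤ 270)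
    (Ω ι : Type) [Fintype Ω] [Nonempty Ω] [Fintype ι]
    (H : Ω → ι → Inst n → ℝ) (κ : Ω → ι → ℝ) (hκ : ∀ ω r, Price5 d s (H ω r) (κ ω r))
    (hdec : ∀ I : Inst n, I.Valid → Tripartite I → Decides H I) :
    (n : ℝ) ^ 3 ≤ 2 ^ 32 * 100 ^ d * ((∑ ω, ∑ r, κ ω r) / Fintype.card Ω) := by
  classical
  have hΩ : (0 : ℝ) < Fintype.card Ω := by exact_mod_cast Fintype.card_pos
  by_cases hm : n < 2048
  · have h1 := small n hn Ω ι H κ (fun ω r => price5_nonneg _ _ (hκ ω r))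
      (fun ω r => ign_of_price5 (by omega) _ _ (hκ ω r)) hdec
    have h7 : (1 / 5 : ℝ) ≤ (∑ ω, ∑ s, κ ω s) / Fintype.card Ω := by
      rw [le_div_iff₀ hΩ]
      linarith
    have h9 : (n : ℝ) ≤ 2048 := by exact_mod_cast hm.le
    have h10 : (n : ℝ) ^ 3 ≤ 2048 ^ 3 := pow_le_pow_left₀ (Nat.cast_nonneg n) h9 3
    have h100 : (100 : ℝ) ≤ 100 ^ d := le_self_pow₀ (by norm_num) (by omega)
    calc (n : ℝ) ^ 3 ≤ 2048 ^ 3 := h10
      _ ≤ 2 ^ 32 * 100 * (1 / 5) := by norm_num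
      _ ≤ 2 ^ 32 * 100 ^ d * ((∑ ω, ∑ s, κ ω s) / Fintype.card Ω) :=
          mul_le_mul (mul_le_mul_of_nonneg_left h100 (by norm_num)) h7 (by norm_num)
            (by positivity)
  · push Not at hm
    have hq0 : (n ^ 3 : ℕ) ≠ 0 := pow_ne_zero _ (by omega)
    have : NeZero (n ^ 3) := ⟨hq0⟩
    have h9 : 9 * (n / 9) ≤ n := Nat.mul_div_le n 9
    have hv := val_room n hm
    have h := final2 (show 18 ≤ n by omega) (2 ^ 13 * 100 ^ d) (n ^ 3) (n ^ 299)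
      (Nat.pow_pos (by omega))
      (fun μ X Y Z => mkM_valid hv μ X Y Z) (fun μ X Y Z h => zero_of_yesM μ X Y Z h)
      (fun μ X Y Z i j k g0 g1 g2 hz => yesM h9 μ X Y Z i j k g0 g1 g2 hz) le_rfl H κ hdec
      (fun ω σ => cap_price5 hm d s hd hs (H ω σ) (κ ω σ) (hκ ω σ))
    refine h.trans (le_of_eq ?_)
    ring

end Pool.Agent.Helper53.TC5
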