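import Pool.Agent.Helper53.TC5.Model

/-!
# Voters that ignore a side
-/

set_option autoImplicit false

namespace Pool.Agent.Helper53.TC5

open Pool.Agent.Helper22.ETModel Pool.Agent.Helper8.VT Pool.Agent.Helper8.UV

/-- `H` does not depend on the weights of one of the sides. -/
def Ign {n : ℕ} (H : Inst n → ℝ) : Prop :=
  ∃ p q : ℕ, p < q ∧ q < 3 ∧ ∀ I J : Inst n, I.Valid → J.Valid → I.flag = J.flag →
    (∀ u v, ¬ Side p q u v → I.wt u v = J.wt u v) → H I = H J

theorem ign_of_free {n : ℕ} (H : Inst n → ℝ) (h : IsFree H) : Ign H := by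
  obtain ⟨p, q, hp, hq, F, hF⟩ := h
  refine ⟨p, q, hp, hq, fun I J hI hJ hf hw => ?_⟩
  rw [hF I hI, hF J hJ, hf]
  congr 1
  funext u v
  unfold hide
  by_cases h : Side p q u v
  · rw [if_pos h, if_pos h]
  · rw [if_neg h, if_neg h, hw u v h]

/-- Without probes in a side the output does not depend on it. -/
theorem eval_eq {n : ℕ} (p q : ℕ) {d : ℕ} (t : Tree n d) (w w' : Wts n)
    (h0 : probes p q t w = 0) (h : ∀ u v, ¬ Side p q u v → w u v = w' u v) :
    t.eval w = t.eval w' := by
  induction t with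
  | leaf v => rfl
  | node i j next ih =>
    unfold probes at h0
    have h1 : ¬ Side p q i j := by
      intro hs
      rw [if_pos hs] at h0
      omega
    rw [if_neg h1] at h0
    show (next (w i j)).eval w = (next (w' i j)).eval w'
    rw [← h i j h1]
    exact ih (w i j) h0

theorem ign_of_sides {n : ℕ} (a b c : ℕ) (H : Inst n → ℝ) (h : IsSides a b c H)
    (h0 : a = 0 ∨ b = 0 ∨ c = 0) : Ign H := by
  obtain ⟨d, t, ht⟩ := h
  have key : ∀ p q : ℕ, (∀ I : Inst n, I.Valid → probes p q (t I.flag) I.wt = 0) →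
      ∀ I J : Inst n, I.Valid → J.Valid → I.flag = J.flag →
      (∀ u v, ¬ Side p q u v → I.wt u v = J.wt u v) → H I = H J := by
    intro p q hpq I J hI hJ hf hw
    rw [(ht I hI).1, (ht J hJ).1, ← hf]
    exact eval_eq p q _ _ _ (hpq I hI) hw
  rcases h0 with h0 | h0 | h0
  · exact ⟨0, 1, by norm_num, by norm_num, key 0 1 fun I hI => by
      have := (ht I hI).2.1
      omega⟩
  · exact ⟨1, 2, by norm_num, by norm_num, key 1 2 fun I hI => by
      have := (ht I hI).2.2.1
      omega⟩
  · exact ⟨0, 2, by norm_num, by norm_num, key 0 2 fun I hI => by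
      have := (ht I hI).2.2.2
      omega⟩

end Pool.Agent.Helper53.TC5
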