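import Pool.Agent.Helper8.UV.Box
import Pool.Agent.Helper53.TC5.Ign

/-!
# Small instances: two triangles with a common edge
-/

set_option autoImplicit false

open Finset

namespace Pool.Agent.Helper53.TC5

open Pool.Agent.Helper22.ETModel Pool.Agent.Helper8.VT Pool.Agent.Helper8.UV

/-- the pair `u v` is the pair `p q` -/
def pr (p q u v : ℕ) : Prop := (u = p ∧ v = q) ∨ (u = q ∧ v = p)

instance (p q u v : ℕ) : Decidable (pr p q u v) := by unfold pr; infer_instance

/-- the weights -/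
def wN (x a b a' b' : ℤ) (u v : ℕ) : ℤ :=
  if pr 1 2 u v then x else if pr 0 1 u v then a else if pr 0 2 u v then b else
    if pr 1 3 u v then a' else if pr 2 3 u v then b' else 100

/-- the instances -/
def I5 (n : ℕ) (x a b a' b' : ℤ) : Inst n :=
  ⟨fun u v => decide ((u : ℕ) % 3 ≠ (v : ℕ) % 3), fun u v => wN x a b a' b' u v⟩

theorem pr_comm (p q u v : ℕ) : pr p q u v ↔ pr p q v u := by
  unfold pr
  constructor
  · rintro (h | h)
    · exact Or.inr ⟨h.2, h.1⟩
    · exact Or.inl ⟨h.2, h.1⟩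
  · rintro (h | h)
    · exact Or.inr ⟨h.2, h.1⟩
    · exact Or.inl ⟨h.2, h.1⟩

theorem wN_comm (x a b a' b' : ℤ) (u v : ℕ) : wN x a b a' b' u v = wN x a b a' b' v u := by
  unfold wN
  simp only [pr_comm _ _ u v]

theorem wN_abs (x a b a' b' : ℤ) (hx : |x| ≤ 2) (ha : |a| ≤ 2) (hb : |b| ≤ 2) (ha' : |a'| ≤ 2)
    (hb' : |b'| ≤ 2) (u v : ℕ) : |wN x a b a' b' u v| ≤ 100 := by
  unfold wN
  split_ifs
  · linarith
  · linarith
  · linarith
  · linarith
  · linarith
  · norm_num

theorem I5_valid (n : ℕ) (hn : 4 ≤ n) (x a b a' b' : ℤ) (hx : |x| ≤ 2) (ha : |a| ≤ 2)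
    (hb : |b| ≤ 2) (ha' : |a'| ≤ 2) (hb' : |b'| ≤ 2) : (I5 n x a b a' b').Valid := by
  refine ⟨fun i j => ?_, fun i => ?_, fun i j => wN_comm _ _ _ _ _ _ _, fun i j => ?_⟩
  · unfold I5
    simp only [ne_eq, decide_not, eq_comm]
  · unfold I5
    simp
  · have h0 : (4 : ℤ) ≤ n := by exact_mod_cast hn
    have h1 : (100 : ℤ) ≤ (n : ℤ) ^ 300 := by
      calc (100 : ℤ) ≤ 4 ^ 4 := by norm_num
        _ ≤ (n : ℤ) ^ 4 := pow_le_pow_left₀ (by norm_num) h0 4
        _ ≤ (n : ℤ) ^ 300 := pow_le_pow_right₀ (by linarith) (by norm_num)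
    exact (wN_abs x a b a' b' hx ha hb ha' hb' i j).trans h1

theorem I5_tripartite (n : ℕ) (x a b a' b' : ℤ) : Tripartite (I5 n x a b a' b') := by
  intro u v
  unfold I5
  simp

theorem wN_cases (x a b a' b' : ℤ) (hx : |x| ≤ 2) (ha : |a| ≤ 2) (hb : |b| ≤ 2) (ha' : |a'| ≤ 2)
    (hb' : |b'| ≤ 2) (u v : ℕ) : wN x a b a' b' u v = 100 ∨
      (-2 ≤ wN x a b a' b' u v ∧ u < 4 ∧ v < 4) := by
  rw [abs_le] at hx ha hb ha' hb'
  unfold wN
  split_ifs with h1 h2 h3 h4 h5
  · exact Or.inr ⟨hx.1, by unfold pr at h1; omega, by unfold pr at h1; omega⟩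
  · exact Or.inr ⟨ha.1, by unfold pr at h2; omega, by unfold pr at h2; omega⟩
  · exact Or.inr ⟨hb.1, by unfold pr at h3; omega, by unfold pr at h3; omega⟩
  · exact Or.inr ⟨ha'.1, by unfold pr at h4; omega, by unfold pr at h4; omega⟩
  · exact Or.inr ⟨hb'.1, by unfold pr at h5; omega, by unfold pr at h5; omega⟩
  · exact Or.inl rfl

theorem no_aux (x a b a' b' : ℤ) (hx : |x| ≤ 2) (ha : |a| ≤ 2) (hb : |b| ≤ 2) (ha' : |a'| ≤ 2)
    (hb' : |b'| ≤ 2) (i j k : ℕ) (hij : i ≠ j) (hjk : j ≠ k) (hik : i ≠ k)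
    (h : wN x a b a' b' i j + wN x a b a' b' j k + wN x a b a' b' i k = 0) :
    x + a + b = 0 ∨ x + a' + b' = 0 := by
  have c1 := wN_cases x a b a' b' hx ha hb ha' hb' i j
  have c2 := wN_cases x a b a' b' hx ha hb ha' hb' j k
  have c3 := wN_cases x a b a' b' hx ha hb ha' hb' i k
  have hb4 : i < 4 ∧ j < 4 ∧ k < 4 := by
    rcases c1 with c1 | c1 <;> rcases c2 with c2 | c2 <;> rcases c3 with c3 | c3 <;> omega
  obtain ⟨hi, hj, hk⟩ := hb4
  rw [abs_le] at hx ha hb ha' hb'
  clear c1 c2 c3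
  interval_cases i <;> interval_cases j <;> first
    | (exfalso; exact hij rfl)
    | (interval_cases k <;> first
        | (exfalso; exact hjk rfl)
        | (exfalso; exact hik rfl)
        | (simp [wN, pr] at h; omega))

theorem I5_yes (n : ℕ) (hn : 4 ≤ n) (x a b a' b' : ℤ) (hx : |x| ≤ 2) (ha : |a| ≤ 2)
    (hb : |b| ≤ 2) (ha' : |a'| ≤ 2) (hb' : |b'| ≤ 2) :
    (I5 n x a b a' b').Yes ↔ x + a + b = 0 ∨ x + a' + b' = 0 := by
  constructor
  · rintro ⟨i, j, k, h1, h2, h3, -, -, -, h⟩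
    exact no_aux x a b a' b' hx ha hb ha' hb' i j k (fun e => h1 (Fin.ext e))
      (fun e => h2 (Fin.ext e)) (fun e => h3 (Fin.ext e)) h
  · rintro (h | h)
    · refine ⟨⟨0, by omega⟩, ⟨1, by omega⟩, ⟨2, by omega⟩, ?_, ?_, ?_, ?_, ?_, ?_, ?_⟩
      · simp
      · simp
      · simp
      · simp [I5]
      · simp [I5]
      · simp [I5]
      · show wN x a b a' b' 0 1 + wN x a b a' b' 1 2 + wN x a b a' b' 0 2 = 0
        have e1 : wN x a b a' b' 0 1 = a := by simp [wN, pr]
        have e2 : wN x a b a' b' 1 2 = x := by simp [wN, pr]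
        have e3 : wN x a b a' b' 0 2 = b := by simp [wN, pr]
        rw [e1, e2, e3]
        linarith
    · refine ⟨⟨3, by omega⟩, ⟨1, by omega⟩, ⟨2, by omega⟩, ?_, ?_, ?_, ?_, ?_, ?_, ?_⟩
      · simp
      · simp
      · simp
      · simp [I5]
      · simp [I5]
      · simp [I5]
      · show wN x a b a' b' 3 1 + wN x a b a' b' 1 2 + wN x a b a' b' 3 2 = 0
        have e1 : wN x a b a' b' 3 1 = a' := by simp [wN, pr]
        have e2 : wN x a b a' b' 1 2 = x := by simp [wN, pr]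
        have e3 : wN x a b a' b' 3 2 = b' := by simp [wN, pr]
        rw [e1, e2, e3]
        linarith

/-- the values of `x`, `a` and `a'` -/
def va (p : Bool) : ℤ := if p then 1 else 0

/-- the values of `b` -/
def vB (p : Bool) : ℤ := if p then -1 else -2

/-- the values of `b'` -/
def vB' (p : Bool) : ℤ := if p then -1 else 0

theorem va_abs (p : Bool) : |va p| ≤ 2 := by cases p <;> simp [va]

theorem vB_abs (p : Bool) : |vB p| ≤ 2 := by cases p <;> simp [vB]

theorem vB'_abs (p : Bool) : |vB' p| ≤ 2 := by cases p <;> simp [vB']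

/-- the vertices of the box -/
def J5 (n : ℕ) (p q r s t : Bool) : Inst n := I5 n (va p) (va q) (vB r) (va s) (vB' t)

theorem J5_valid (n : ℕ) (hn : 4 ≤ n) (p q r s t : Bool) : (J5 n p q r s t).Valid :=
  I5_valid n hn _ _ _ _ _ (va_abs p) (va_abs q) (vB_abs r) (va_abs s) (vB'_abs t)

theorem J5_yes (n : ℕ) (hn : 4 ≤ n) (p q r s t : Bool) :
    (J5 n p q r s t).Yes ↔ va p + va q + vB r = 0 ∨ va p + va s + vB' t = 0 :=
  I5_yes n hn _ _ _ _ _ (va_abs p) (va_abs q) (vB_abs r) (va_abs s) (vB'_abs t)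

/-- the sixteen vertices that are used -/
def V5 (n : ℕ) (z : Bool × Bool × Bool × Bool) : Inst n :=
  J5 n z.1 z.2.2.1 (xor z.2.1 z.2.2.1) z.2.2.2 (xor z.2.1 z.2.2.2)

theorem wN_congr (x a b a' b' x' y c y' c' : ℤ) (u v : ℕ) (h1 : pr 1 2 u v → x = x')
    (h2 : pr 0 1 u v → a = y) (h3 : pr 0 2 u v → b = c) (h4 : pr 1 3 u v → a' = y')
    (h5 : pr 2 3 u v → b' = c') : wN x a b a' b' u v = wN x' y c y' c' u v := by
  unfold wN
  by_cases g1 : pr 1 2 u v
  · rw [if_pos g1, if_pos g1, h1 g1]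
  rw [if_neg g1, if_neg g1]
  by_cases g2 : pr 0 1 u v
  · rw [if_pos g2, if_pos g2, h2 g2]
  rw [if_neg g2, if_neg g2]
  by_cases g3 : pr 0 2 u v
  · rw [if_pos g3, if_pos g3, h3 g3]
  rw [if_neg g3, if_neg g3]
  by_cases g4 : pr 1 3 u v
  · rw [if_pos g4, if_pos g4, h4 g4]
  rw [if_neg g4, if_neg g4]
  by_cases g5 : pr 2 3 u v
  · rw [if_pos g5, if_pos g5, h5 g5]
  rw [if_neg g5, if_neg g5]

/-- voters that ignore a side do not change if a weight of this side changes -/
theorem ign_three {n : ℕ} (hn : 4 ≤ n) (H : Inst n → ℝ) (hH : Ign H) :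
    (∀ s t, D3 (fun u v w => H (I5 n u v w (va s) (vB' t))) va va vB = 0) ∧
    ∀ q r, D3 (fun u v w => H (I5 n u (va q) (vB r) v w)) va va vB' = 0 := by
  obtain ⟨p0, q0, hp, hq, hI⟩ := hH
  have hc : (p0 = 0 ∧ q0 = 1) ∨ (p0 = 1 ∧ q0 = 2) ∨ (p0 = 0 ∧ q0 = 2) := by omega
  have off : ∀ x a b a' b' x' y c y' c' : ℤ,
      ((p0 = 0 ∧ q0 = 1) → x = x' ∧ b = c ∧ b' = c') →
      ((p0 = 1 ∧ q0 = 2) → a = y ∧ b = c ∧ a' = y' ∧ b' = c') →
      ((p0 = 0 ∧ q0 = 2) → x = x' ∧ a = y ∧ a' = y') →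
      ∀ u v : Fin n, ¬ Side p0 q0 u v → wN x a b a' b' u v = wN x' y c y' c' u v := by
    intro x a b a' b' x' y c y' c' g1 g2 g3 u v hs
    unfold Side at hs
    refine wN_congr _ _ _ _ _ _ _ _ _ _ _ _ (fun h => ?_) (fun h => ?_) (fun h => ?_)
      (fun h => ?_) (fun h => ?_)
    all_goals
      unfold pr at h
      rcases hc with ⟨rfl, rfl⟩ | ⟨rfl, rfl⟩ | ⟨rfl, rfl⟩
    · exact (g1 ⟨rfl, rfl⟩).1
    · exfalso; omega
    · exact (g3 ⟨rfl, rfl⟩).1
    · exfalso; omega
    · exact (g2 ⟨rfl, rfl⟩).1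
    · exact (g3 ⟨rfl, rfl⟩).2.1
    · exact (g1 ⟨rfl, rfl⟩).2.1
    · exact (g2 ⟨rfl, rfl⟩).2.1
    · exfalso; omega
    · exfalso; omega
    · exact (g2 ⟨rfl, rfl⟩).2.2.1
    · exact (g3 ⟨rfl, rfl⟩).2.2
    · exact (g1 ⟨rfl, rfl⟩).2.2
    · exact (g2 ⟨rfl, rfl⟩).2.2.2
    · exfalso; omega
  have eqJ : ∀ p q r s t p' q' r' s' t' : Bool,
      ((p0 = 0 ∧ q0 = 1) → p = p' ∧ r = r' ∧ t = t') →
      ((p0 = 1 ∧ q0 = 2) → q = q' ∧ r = r' ∧ s = s' ∧ t = t') →
      ((p0 = 0 ∧ q0 = 2) → p = p' ∧ q = q' ∧ s = s') →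
      H (J5 n p q r s t) = H (J5 n p' q' r' s' t') := by
    intro p q r s t p' q' r' s' t' g1 g2 g3
    refine hI _ _ (J5_valid n hn _ _ _ _ _) (J5_valid n hn _ _ _ _ _) rfl ?_
    refine off _ _ _ _ _ _ _ _ _ _ (fun h => ?_) (fun h => ?_) (fun h => ?_)
    · obtain ⟨e1, e2, e3⟩ := g1 h
      rw [e1, e2, e3]
      exact ⟨rfl, rfl, rfl⟩
    · obtain ⟨e1, e2, e3, e4⟩ := g2 h
      rw [e1, e2, e3, e4]
      exact ⟨rfl, rfl, rfl, rfl⟩
    · obtain ⟨e1, e2, e3⟩ := g3 h
      rw [e1, e2, e3]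
      exact ⟨rfl, rfl, rfl⟩
  constructor
  · intro s t
    have e : ∀ p q r, H (I5 n (va p) (va q) (vB r) (va s) (vB' t)) = H (J5 n p q r s t) :=
      fun _ _ _ => rfl
    simp only [D3, Fintype.sum_bool, sg, if_true, Bool.false_eq_true, if_false, e]
    rcases hc with h | h | h
    · have k1 := fun p r => eqJ p true r s t p false r s t (fun _ => ⟨rfl, rfl, rfl⟩)
        (fun h' => by omega) (fun h' => by omega)
      rw [k1 true true, k1 true false, k1 false true, k1 false false]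
      ring
    · have k1 := fun q r => eqJ true q r s t false q r s t (fun h' => by omega)
        (fun _ => ⟨rfl, rfl, rfl, rfl⟩) (fun h' => by omega)
      rw [k1 true true, k1 true false, k1 false true, k1 false false]
      ring
    · have k1 := fun p q => eqJ p q true s t p q false s t (fun h' => by omega)
        (fun h' => by omega) (fun _ => ⟨rfl, rfl, rfl⟩)
      rw [k1 true true, k1 true false, k1 false true, k1 false false]
      ring
  · intro q r
    have e : ∀ p s t, H (I5 n (va p) (va q) (vB r) (va s) (vB' t)) = H (J5 n p q r s t) :=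
      fun _ _ _ => rfl
    simp only [D3, Fintype.sum_bool, sg, if_true, Bool.false_eq_true, if_false, e]
    rcases hc with h | h | h
    · have k1 := fun p t => eqJ p q r true t p q r false t (fun _ => ⟨rfl, rfl, rfl⟩)
        (fun h' => by omega) (fun h' => by omega)
      rw [k1 true true, k1 true false, k1 false true, k1 false false]
      ring
    · have k1 := fun s t => eqJ true q r s t false q r s t (fun h' => by omega)
        (fun _ => ⟨rfl, rfl, rfl, rfl⟩) (fun h' => by omega)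
      rw [k1 true true, k1 true false, k1 false true, k1 false false]
      ring
    · have k1 := fun p s => eqJ p q r s true p q r s false (fun h' => by omega)
        (fun h' => by omega) (fun _ => ⟨rfl, rfl, rfl⟩)
      rw [k1 true true, k1 true false, k1 false true, k1 false false]
      ring

/-- If the circuit is right on the sixteen instances, then a voter has a price of at least `1`. -/
theorem one_voter {n : ℕ} (hn : 4 ≤ n) {ι : Type} [Fintype ι] (H : ι → Inst n → ℝ)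
    (hgood : ∀ z, 0 < ∑ r, H r (V5 n z) ↔ (V5 n z).Yes) : ∃ r, ¬ Ign (H r) := by
  by_contra hcon
  push Not at hcon
  have key := R3 (fun u v w v' w' : ℤ => ∑ r, H r (I5 n u v w v' w')) va va vB va vB' ?_ ?_ ?_ ?_
  · rcases key with ⟨s, t, h⟩ | ⟨q, r, h⟩
    · apply h
      rw [D3_sum (fun (i : ι) (u v w : ℤ) => H i (I5 n u v w (va s) (vB' t)))]
      exact sum_eq_zero fun i _ => (ign_three hn (H i) (hcon i)).1 s t
    · apply h
      rw [D3_sum (fun (i : ι) (u v w : ℤ) => H i (I5 n u (va q) (vB r) v w))]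
      exact sum_eq_zero fun i _ => (ign_three hn (H i) (hcon i)).2 q r
  · intro q s
    have h1 := hgood (false, true, q, s)
    have h2 : ¬ (V5 n (false, true, q, s)).Yes := by
      unfold V5
      rw [J5_yes n hn]
      cases q <;> cases s <;> simp [va, vB, vB']
    have h3 : ¬ 0 < ∑ r, H r (V5 n (false, true, q, s)) := fun h => h2 (h1.1 h)
    have e : V5 n (false, true, q, s) = I5 n (va false) (va q) (vB (!q)) (va s) (vB' (!s)) := by
      unfold V5 J5
      simp only [Bool.true_xor]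
    rw [e] at h3
    exact not_lt.1 h3
  · intro q s
    have h1 := hgood (true, false, q, s)
    have h2 : ¬ (V5 n (true, false, q, s)).Yes := by
      unfold V5
      rw [J5_yes n hn]
      cases q <;> cases s <;> simp [va, vB, vB']
    have h3 : ¬ 0 < ∑ r, H r (V5 n (true, false, q, s)) := fun h => h2 (h1.1 h)
    have e : V5 n (true, false, q, s) = I5 n (va true) (va q) (vB q) (va s) (vB' s) := by
      unfold V5 J5
      simp only [Bool.false_xor]
    rw [e] at h3
    exact not_lt.1 h3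
  · intro q s
    have h1 := hgood (false, false, q, s)
    have h2 : (V5 n (false, false, q, s)).Yes := by
      unfold V5
      rw [J5_yes n hn]
      cases q <;> cases s <;> simp [va, vB, vB']
    have h3 := h1.2 h2
    have e : V5 n (false, false, q, s) = I5 n (va false) (va q) (vB q) (va s) (vB' s) := by
      unfold V5 J5
      simp only [Bool.false_xor]
    rw [e] at h3
    exact h3
  · intro q s
    have h1 := hgood (true, true, q, s)
    have h2 : (V5 n (true, true, q, s)).Yes := by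
      unfold V5
      rw [J5_yes n hn]
      cases q <;> cases s <;> simp [va, vB, vB']
    have h3 := h1.2 h2
    have e : V5 n (true, true, q, s) = I5 n (va true) (va q) (vB (!q)) (va s) (vB' (!s)) := by
      unfold V5 J5
      simp only [Bool.true_xor]
    rw [e] at h3
    exact h3

/-- The lower bound for small `n`. -/
theorem small5 (n : ℕ) (hn : 4 ≤ n) (Ω ι : Type) [Fintype Ω] [Nonempty Ω] [Fintype ι]
    (H : Ω → ι → Inst n → ℝ) (κ : Ω → ι → ℝ) (h0 : ∀ ω r, 0 ≤ κ ω r)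
    (h1 : ∀ ω r, κ ω r < 1 → Ign (H ω r))
    (hdec : ∀ I : Inst n, I.Valid → Tripartite I → Decides H I) :
    (Fintype.card Ω : ℝ) / 5 ≤ ∑ ω, ∑ r, κ ω r := by
  classical
  let B : (Bool × Bool × Bool × Bool) → Finset Ω := fun z =>
    univ.filter fun ω => ¬ (0 < ∑ r, H ω r (V5 n z) ↔ (V5 n z).Yes)
  have hB : ∀ z, 20 * (B z).card ≤ Fintype.card Ω := by
    intro z
    have h2 : 19 * Fintype.card Ω ≤ 20 *
        (univ.filter fun ω : Ω => (0 < ∑ r, H ω r (V5 n z) ↔ (V5 n z).Yes)).card := by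
      have := hdec (V5 n z) (J5_valid n hn _ _ _ _ _) (I5_tripartite n _ _ _ _ _)
      unfold Decides at this
      convert this
    have h3 := card_filter_add_card_filter_not (s := (univ : Finset Ω))
      (fun ω : Ω => (0 < ∑ r, H ω r (V5 n z) ↔ (V5 n z).Yes))
    rw [card_univ] at h3
    have h4 : (B z).card = (univ.filter fun ω : Ω =>
      ¬ (0 < ∑ r, H ω r (V5 n z) ↔ (V5 n z).Yes)).card := rfl
    omega
  set G : Finset Ω := univ \ univ.biUnion B with hG
  have hU : 20 * (univ.biUnion B).card ≤ 16 * Fintype.card Ω := by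
    have h2 : (univ.biUnion B).card ≤ ∑ z, (B z).card := card_biUnion_le
    have h3 : ∑ z, 20 * (B z).card ≤ ∑ _z : Bool × Bool × Bool × Bool, Fintype.card Ω :=
      sum_le_sum fun z _ => hB z
    rw [← mul_sum, sum_const, card_univ, smul_eq_mul] at h3
    have h4 : Fintype.card (Bool × Bool × Bool × Bool) = 16 := rfl
    rw [h4] at h3
    omega
  have hGc : Fintype.card Ω ≤ 5 * G.card := by
    have h2 : G.card + (univ.biUnion B).card = Fintype.card Ω := by
      rw [hG, card_sdiff_add_card_eq_card (subset_univ _), card_univ]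
    omega
  have h6 : (G.card : ℝ) ≤ ∑ ω, ∑ s, κ ω s := by
    calc (G.card : ℝ) = ∑ ω ∈ G, (1 : ℝ) := by simp
      _ ≤ ∑ ω ∈ G, ∑ s, κ ω s := by
          refine sum_le_sum fun ω hω => ?_
          have hg : ∀ z, 0 < ∑ r, H ω r (V5 n z) ↔ (V5 n z).Yes := by
            intro z
            by_contra hcon
            rw [hG, mem_sdiff] at hω
            exact hω.2 (mem_biUnion.2 ⟨z, mem_univ _, mem_filter.2 ⟨mem_univ _, hcon⟩⟩)
          obtain ⟨r, hr⟩ := one_voter hn (H ω) hg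
          have h2 : 1 ≤ κ ω r := by
            by_contra hcon
            exact hr (h1 ω r (not_le.1 hcon))
          exact h2.trans (single_le_sum (f := fun s => κ ω s) (fun s _ => h0 ω s) (mem_univ r))
      _ ≤ ∑ ω, ∑ s, κ ω s := sum_le_sum_of_subset_of_nonneg (subset_univ _)
          fun ω _ _ => sum_nonneg fun s _ => h0 ω s
  have h7 : (Fintype.card Ω : ℝ) ≤ 5 * G.card := by exact_mod_cast hGc
  linarith

end Pool.Agent.Helper53.TC5
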