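import Pool.Agent.Helper53.TC5.Model
import Pool.Agent.Helper95.RV.Upper

/-!
# Few voters that know two sides and some of the weights of the third side
-/

set_option autoImplicit false

open Finset

namespace Pool.Agent.Helper53.TC5

open Pool.Agent.Helper22.ETModel Pool.Agent.Helper8.VT Pool.Agent.Helper8.UV

variable {n : ℕ}

/-- the tree that reads the cells of a list -/
def readAll : (L : List (Fin n × Fin n)) → (Wts n → ℝ) → Wts n → Tree n L.length
  | [], g, w => .leaf (g w)
  | e :: L, g, w => .node e.1 e.2 fun z => readAll L g fun u v => if (u, v) = e then z else w u v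

theorem readAll_eval (L : List (Fin n × Fin n)) (g : Wts n → ℝ) (w₀ w : Wts n) :
    (readAll L g w₀).eval w = g fun u v => if (u, v) ∈ L then w u v else w₀ u v := by
  induction L generalizing w₀ with
  | nil => simp [readAll, Tree.eval]
  | cons e L ih =>
    show (readAll L g fun u v => if (u, v) = e then w e.1 e.2 else w₀ u v).eval w = _
    rw [ih]
    congr 1
    funext u v
    by_cases h1 : (u, v) ∈ L
    · rw [if_pos h1, if_pos (List.mem_cons_of_mem e h1)]
    · rw [if_neg h1]
      by_cases h2 : (u, v) = e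
      · rw [if_pos h2, if_pos (by rw [h2]; exact List.mem_cons_self), ← h2]
      · rw [if_neg h2, if_neg (by
          rw [List.mem_cons]
          exact fun h => h.elim h2 h1)]

theorem readAll_probes (p q : ℕ) (L : List (Fin n × Fin n)) (g : Wts n → ℝ) (w₀ w : Wts n) :
    probes p q (readAll L g w₀) w = L.countP fun e => decide (Side p q e.1 e.2) := by
  induction L generalizing w₀ with
  | nil => rfl
  | cons e L ih =>
    show probes p q (readAll L g fun u v => if (u, v) = e then w e.1 e.2 else w₀ u v) w +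
      (if Side p q e.1 e.2 then 1 else 0) = _
    rw [ih, List.countP_cons]
    by_cases h : Side p q e.1 e.2 <;> simp [h]

/-- a function of the weights in the cells of a list -/
theorem isSides_of (L : List (Fin n × Fin n)) (g : Wts n → ℝ) (H : Inst n → ℝ) (a b c : ℕ)
    (hg : ∀ w w' : Wts n, (∀ u v, (u, v) ∈ L → w u v = w' u v) → g w = g w')
    (hH : ∀ I : Inst n, I.Valid → H I = g I.wt)
    (ha : (L.countP fun e => decide (Side 0 1 e.1 e.2)) ≤ a)
    (hb : (L.countP fun e => decide (Side 1 2 e.1 e.2)) ≤ b)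
    (hc : (L.countP fun e => decide (Side 0 2 e.1 e.2)) ≤ c) : IsSides a b c H := by
  refine ⟨L.length, fun _ => readAll L g fun _ _ => 0, fun I hI => ⟨?_, ?_, ?_, ?_⟩⟩
  · rw [hH I hI, readAll_eval]
    refine hg _ _ fun u v h => ?_
    rw [if_pos h]
  · rw [readAll_probes]; exact ha
  · rw [readAll_probes]; exact hb
  · rw [readAll_probes]; exact hc

/-- the cells from the class `p` to the class `q` with a property, in a list -/
noncomputable def cells (p q : ℕ) (S : Finset (Fin n × Fin n)) : List (Fin n × Fin n) :=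
  (S.filter fun e => (e.1 : ℕ) % 3 = p ∧ (e.2 : ℕ) % 3 = q).toList

theorem mem_cells (p q : ℕ) (S : Finset (Fin n × Fin n)) (e : Fin n × Fin n) :
    e ∈ cells p q S ↔ e ∈ S ∧ (e.1 : ℕ) % 3 = p ∧ (e.2 : ℕ) % 3 = q := by
  unfold cells
  rw [mem_toList, mem_filter]

theorem count_cells (p q p' q' : ℕ) (S : Finset (Fin n × Fin n))
    (h : ¬ ((p = p' ∧ q = q') ∨ (p = q' ∧ q = p'))) :
    ((cells p q S).countP fun e => decide (Side p' q' e.1 e.2)) = 0 := by
  rw [List.countP_eq_zero]
  intro e he
  rw [mem_cells] at he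
  simp only [decide_eq_true_eq]
  unfold Side
  rintro (h1 | h1)
  · exact h (Or.inl ⟨he.2.1.symm.trans h1.1, he.2.2.symm.trans h1.2⟩)
  · exact h (Or.inr ⟨he.2.1.symm.trans h1.1, he.2.2.symm.trans h1.2⟩)

theorem count_cells_le (p q p' q' : ℕ) (S : Finset (Fin n × Fin n)) :
    ((cells p q S).countP fun e => decide (Side p' q' e.1 e.2)) ≤ S.card := by
  refine (List.countP_le_length).trans ?_
  unfold cells
  rw [length_toList]
  exact card_filter_le _ _

open Classical in
/-- the number of zero triangles at the cells of `S` -/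
noncomputable def zeros (S : Finset (Fin n × Fin n)) (w : Wts n) : ℝ :=
  ((univ.filter fun t : Fin n × Fin n × Fin n => (t.1, t.2.2) ∈ S ∧ (t.1 : ℕ) % 3 = 0 ∧
    (t.2.1 : ℕ) % 3 = 1 ∧ (t.2.2 : ℕ) % 3 = 2 ∧ w t.1 t.2.1 + w t.2.1 t.2.2 + w t.1 t.2.2 = 0).card : ℝ)

theorem zeros_sides (S : Finset (Fin n × Fin n)) :
    IsSides (n ^ 2) (n ^ 2) S.card (fun I : Inst n => zeros S I.wt) := by
  classical
  have hu : (univ : Finset (Fin n × Fin n)).card = n ^ 2 := by
    rw [card_univ, Fintype.card_prod, Fintype.card_fin, sq]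
  refine isSides_of (cells 0 1 univ ++ (cells 1 2 univ ++ cells 0 2 S)) (zeros S) _ _ _ _
    (fun w w' h => ?_) (fun I _ => rfl) ?_ ?_ ?_
  · unfold zeros
    congr 2
    refine filter_congr fun t _ => ?_
    refine and_congr_right fun h1 => and_congr_right fun h2 => and_congr_right fun h3 =>
      and_congr_right fun h4 => ?_
    rw [h t.1 t.2.1 (List.mem_append_left _ ((mem_cells _ _ _ _).2 ⟨mem_univ _, h2, h3⟩)),
      h t.2.1 t.2.2 (List.mem_append_right _ (List.mem_append_left _
        ((mem_cells _ _ _ _).2 ⟨mem_univ _, h3, h4⟩))),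
      h t.1 t.2.2 (List.mem_append_right _ (List.mem_append_right _
        ((mem_cells _ _ _ _).2 ⟨h1, h2, h4⟩)))]
  · rw [List.countP_append, List.countP_append, count_cells 1 2 0 1 _ (by omega),
      count_cells 0 2 0 1 _ (by omega), add_zero, add_zero, ← hu]
    exact count_cells_le _ _ _ _ _
  · rw [List.countP_append, List.countP_append, count_cells 0 1 1 2 _ (by omega),
      count_cells 0 2 1 2 _ (by omega), add_zero, zero_add, ← hu]
    exact count_cells_le _ _ _ _ _
  · rw [List.countP_append, List.countP_append, count_cells 0 1 0 2 _ (by omega),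
      count_cells 1 2 0 2 _ (by omega), zero_add, zero_add]
    exact count_cells_le _ _ _ _ _

/-- `N ≤ 2 n² / t` voters that know two sides and `t` weights of the third side decide all
tripartite instances. -/
theorem upper5 (n t : ℕ) (ht : 1 ≤ t) (htn : t ≤ n ^ 2) : ∃ (N : ℕ) (H : Fin N → Inst n → ℝ),
    N * t ≤ 2 * n ^ 2 ∧ (∀ r, IsSides (n ^ 2) (n ^ 2) t (H r)) ∧
    ∀ I : Inst n, I.Valid → Tripartite I → (0 < ∑ r, H r I ↔ I.Yes) := by
  classical
  set N := (n ^ 2 + t - 1) / t with hN
  let ix : Fin n × Fin n → ℕ := fun e => n * (e.1 : ℕ) + e.2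
  have hix : ∀ e, ix e < n ^ 2 := by
    intro e
    have h1 := e.1.2
    have h2 := e.2.2
    have h3 : n * (e.1 : ℕ) + n ≤ n * n := by
      have : (e.1 : ℕ) + 1 ≤ n := h1
      calc n * (e.1 : ℕ) + n = n * ((e.1 : ℕ) + 1) := by ring
        _ ≤ n * n := Nat.mul_le_mul_left _ this
    show n * (e.1 : ℕ) + e.2 < n ^ 2
    rw [sq]
    omega
  have hinj : Function.Injective ix := by
    intro e e' h
    have hn : 0 < n := lt_of_le_of_lt (Nat.zero_le _) e.1.2
    have h' : n * (e.1 : ℕ) + e.2 = n * (e'.1 : ℕ) + e'.2 := h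
    have d1 : (e.1 : ℕ) = e'.1 := by
      have a1 : (n * (e.1 : ℕ) + e.2) / n = e.1 := by
        rw [Nat.mul_add_div hn, Nat.div_eq_of_lt e.2.2, add_zero]
      have a2 : (n * (e'.1 : ℕ) + e'.2) / n = e'.1 := by
        rw [Nat.mul_add_div hn, Nat.div_eq_of_lt e'.2.2, add_zero]
      rw [← a1, ← a2, h']
    have d2 : (e.2 : ℕ) = e'.2 := by
      rw [d1] at h'
      omega
    exact Prod.ext (Fin.ext d1) (Fin.ext d2)
  let S : Fin N → Finset (Fin n × Fin n) := fun r => univ.filter fun e => ix e / t = r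
  have hS : ∀ r, (S r).card ≤ t := by
    intro r
    have h1 : (S r).card ≤ (Finset.Ico (r * t) (r * t + t)).card := by
      refine card_le_card_of_injOn ix ?_ (fun e _ e' _ h => hinj h)
      intro e he
      have he' : ix e / t = r := (mem_filter.1 he).2
      rw [coe_Ico, Set.mem_Ico]
      have h2 := Nat.div_add_mod (ix e) t
      have h3 := Nat.mod_lt (ix e) (show t > 0 from ht)
      rw [he', mul_comm] at h2
      omega
    rw [Nat.card_Ico] at h1
    omega
  refine ⟨N, fun r I => zeros (S r) I.wt, ?_, fun r => ?_, fun I hI hT => ?_⟩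
  · have h1 : N * t ≤ n ^ 2 + t - 1 := Nat.div_mul_le_self _ _
    omega
  · obtain ⟨d, T, hT⟩ := zeros_sides (S r)
    exact ⟨d, T, fun I hI => ⟨(hT I hI).1, (hT I hI).2.1, (hT I hI).2.2.1,
      (hT I hI).2.2.2.trans (hS r)⟩⟩
  · rw [Pool.Agent.Helper95.RV.yes_iff I hI hT]
    constructor
    · intro h
      by_contra hcon
      push Not at hcon
      have h0 : ∑ r, zeros (S r) I.wt = 0 := by
        refine sum_eq_zero fun r _ => ?_
        unfold zeros
        rw [Nat.cast_eq_zero, card_eq_zero, filter_eq_empty_iff]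
        rintro t - ⟨_, h2, h3, h4, h5⟩
        exact hcon t.1 t.2.1 t.2.2 h2 h3 h4 h5
      linarith
    · rintro ⟨c, j, k, hc, hj, hk, h⟩
      have hr : ix (c, k) / t < N := by
        rw [Nat.div_lt_iff_lt_mul ht]
        have h1 := hix (c, k)
        have h2 : n ^ 2 ≤ N * t := by
          have h3 := Nat.div_add_mod (n ^ 2 + t - 1) t
          have h4 := Nat.mod_lt (n ^ 2 + t - 1) (show t > 0 from ht)
          rw [← hN, mul_comm] at h3
          omega
        omega
      refine sum_pos' (fun r _ => Nat.cast_nonneg _) ⟨⟨ix (c, k) / t, hr⟩, mem_univ _, ?_⟩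
      unfold zeros
      rw [Nat.cast_pos, card_pos]
      exact ⟨(c, j, k), mem_filter.2 ⟨mem_univ _, mem_filter.2 ⟨mem_univ _, rfl⟩, hc, hj, hk, h⟩⟩

end Pool.Agent.Helper53.TC5
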