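import Pool.Agent.Helper21.UV4.Price4
import Pool.Agent.Helper53.TC5.Ign

/-!
# The capacities of voters that ignore a side and of trees with few probes in the sides
-/

set_option autoImplicit false
set_option linter.unusedSectionVars false

open Finset
open scoped BigOperators

namespace Pool.Agent.Helper53.TC5

open Pool.Agent.Helper22.ETModel Pool.Agent.Helper8.VT Pool.Agent.Helper8.UV
open Pool.Agent.Helper21.UV Pool.Agent.Helper50.UV
open Pool.Agent.Helper8.VS (tri_sq ind ind_nonneg ind_le_one ind_true ind_false)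

/-- the classes of the sides -/
def cls : Fin 3 → ℕ × ℕ
  | 0 => (0, 1)
  | 1 => (1, 2)
  | 2 => (0, 2)

section
variable {n m Q : ℕ}

theorem okey_side {u v : Fin n} {e : Key m} {s : ℕ} (h : okey m u v = some (e, s)) :
    Side (cls e.1).1 (cls e.1).2 u v := by
  unfold okey at h
  split_ifs at h with h1 h2 h3
  · simp only [Option.some.injEq, Prod.mk.injEq] at h
    rw [← h.1]
    exact Or.inl ⟨h1.1, h1.2.1⟩
  · simp only [Option.some.injEq, Prod.mk.injEq] at h
    rw [← h.1]
    exact Or.inl ⟨h2.1, h2.2.1⟩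
  · simp only [Option.some.injEq, Prod.mk.injEq] at h
    rw [← h.1]
    exact Or.inr ⟨h3.1, h3.2.1⟩

theorem side_symm {p q : ℕ} {u v : Fin n} (h : Side p q u v) : Side p q v u := by
  rcases h with h | h
  · exact Or.inr ⟨h.2, h.1⟩
  · exact Or.inl ⟨h.2, h.1⟩

/-- The variables of the kind `c` are in the side `c`. -/
theorem key_side {u v : Fin n} {e : Key m} {s : ℕ} (h : key m u v = some (e, s)) :
    Side (cls e.1).1 (cls e.1).2 u v := by
  unfold key at h
  rcases h1 : okey m u v with _ | x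
  · rw [h1] at h
    exact side_symm (okey_side h)
  · rw [h1] at h
    simp only at h
    rw [← h1] at h
    exact okey_side h

/-- The third difference vanishes if one of the arguments is ignored. -/
theorem D3_first {V : Type} (F : V → V → V → ℝ) (x a b : Bool → V)
    (h : ∀ u u' v w, F u v w = F u' v w) : D3 F x a b = 0 := by
  simp only [D3, Fintype.sum_bool, sg, if_true, Bool.false_eq_true, if_false]
  rw [h (x false) (x true), h (x false) (x true), h (x false) (x true), h (x false) (x true)]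
  ring

theorem D3_second {V : Type} (F : V → V → V → ℝ) (x a b : Bool → V)
    (h : ∀ u v v' w, F u v w = F u v' w) : D3 F x a b = 0 := by
  simp only [D3, Fintype.sum_bool, sg, if_true, Bool.false_eq_true, if_false]
  rw [h (x true) (a false) (a true), h (x true) (a false) (a true), h (x false) (a false) (a true),
    h (x false) (a false) (a true)]
  ring

theorem D3_third {V : Type} (F : V → V → V → ℝ) (x a b : Bool → V)
    (h : ∀ u v w w', F u v w = F u v w') : D3 F x a b = 0 := by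
  simp only [D3, Fintype.sum_bool, sg, if_true, Bool.false_eq_true, if_false]
  rw [h (x true) (a true) (b false) (b true), h (x true) (a false) (b false) (b true),
    h (x false) (a true) (b false) (b true), h (x false) (a false) (b false) (b true)]
  ring

/-- The weights outside the side `c` do not depend on the variables of the kind `c`. -/
theorem wt_off (h0 : Fin n → Fin n → ℤ) (h : Fin n → Fin n → ZMod Q → ℤ) (c : Fin 3)
    (X X' Y Y' Z Z' : Cfg m Q) (hc : ∀ e : Key m, e.1 ≠ c → val3 X Y Z e = val3 X' Y' Z' e)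
    (p q : ℕ) (hpq : (p, q) = cls c) (u v : Fin n) (hs : ¬ Side p q u v) :
    WtH m Q h0 h X Y Z u v = WtH m Q h0 h X' Y' Z' u v := by
  unfold WtH
  rcases hk : key m u v with _ | ⟨e, s⟩
  · rfl
  · simp only
    rw [hc e]
    rintro rfl
    apply hs
    have h1 := key_side hk
    rw [← hpq] at h1
    exact h1

variable [NeZero Q]

theorem pq_cases (p q : ℕ) (hp : p < q) (hq : q < 3) : ∃ c : Fin 3, (p, q) = cls c := by
  have h1 : (p = 0 ∧ q = 1) ∨ (p = 1 ∧ q = 2) ∨ (p = 0 ∧ q = 2) := by omega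
  rcases h1 with ⟨rfl, rfl⟩ | ⟨rfl, rfl⟩ | ⟨rfl, rfl⟩
  · exact ⟨0, rfl⟩
  · exact ⟨1, rfl⟩
  · exact ⟨2, rfl⟩

/-- The capacity of a voter that ignores a side. -/
theorem ign_cap (h0 : Fin n → Fin n → ℤ) (h : Fin n → Fin n → ZMod Q → ℤ)
    (hval : ∀ X Y Z : Cfg m Q, (mkH h0 h X Y Z).Valid) (H : Inst n → ℝ) (hH : Ign H) :
    cap (GM (mkH (m := m) h0 h) H) = 0 := by
  classical
  obtain ⟨p, q, hp, hq, hI⟩ := hH
  obtain ⟨c, hc⟩ := pq_cases p q hp hq
  have key0 : ∀ X X' Y Y' Z Z' : Cfg m Q, (∀ e : Key m, e.1 ≠ c → val3 X Y Z e = val3 X' Y' Z' e) →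
      GM (mkH (m := m) h0 h) H X Y Z = GM (mkH (m := m) h0 h) H X' Y' Z' := by
    intro X X' Y Y' Z Z' he
    exact hI _ _ (hval X Y Z) (hval X' Y' Z') rfl fun u v hs =>
      wt_off h0 h c X X' Y Y' Z Z' he p q hc u v hs
  have hev : ∀ i j k k' (X Y Z : Cfg m Q) x a a',
      ¬ ev (GM (mkH (m := m) h0 h) H) i j k k' X Y Z x a a' := by
    intro i j k k' X Y Z x a a' hev
    obtain ⟨s, t, hD⟩ := hev
    apply hD
    fin_cases c
    · refine D3_first _ _ _ _ fun u u' v w => key0 _ _ _ _ _ _ fun e he => ?_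
      obtain ⟨c', e'⟩ := e
      fin_cases c'
      · exact absurd rfl he
      · rfl
      · rfl
    · refine D3_second _ _ _ _ fun u v v' w => key0 _ _ _ _ _ _ fun e he => ?_
      obtain ⟨c', e'⟩ := e
      fin_cases c'
      · rfl
      · exact absurd rfl he
      · rfl
    · refine D3_third _ _ _ _ fun u v w w' => key0 _ _ _ _ _ _ fun e he => ?_
      obtain ⟨c', e'⟩ := e
      fin_cases c'
      · rfl
      · rfl
      · exact absurd rfl he
  unfold cap
  refine Finset.sum_eq_zero fun i _ => Finset.sum_eq_zero fun j _ => Finset.sum_eq_zero fun k _ =>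
    Finset.sum_eq_zero fun k' _ => ?_
  simp only [hev, if_false, Finset.expect_const_zero]

/-! ### Trees -/

/-- The number of probes of variables of the kind `c` is at most the number of probes in the side
`c`. -/
theorem count_le (c : Fin 3) (p q : ℕ) (hpq : (p, q) = cls c) {d : ℕ} (t : Tree n d) (w : Wts n) :
    ((t.path (fun u v => (key m u v).map Prod.fst) w).filter
      fun o => decide (∃ e, o = some ((c, e) : Key m))).length ≤ probes p q t w := by
  classical
  induction t with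
  | leaf v => simp [Tree.path]
  | node i j next ih =>
    have h1 := ih (w i j)
    simp only [Tree.path, probes]
    rw [List.filter_cons]
    by_cases hk : ∃ e, (key m i j).map Prod.fst = some ((c, e) : Key m)
    · have hs : Side p q i j := by
        obtain ⟨e, he⟩ := hk
        rcases hk' : key m i j with _ | ⟨e', s⟩
        · rw [hk'] at he
          exact absurd he (by simp)
        · rw [hk'] at he
          have h2 : e' = (c, e) := by simpa using he
          have h3 := key_side hk'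
          rw [h2] at h3
          simp only at h3
          rw [← hpq] at h3
          exact h3
      rw [if_pos (by simpa using hk), if_pos hs, List.length_cons]
      omega
    · rw [if_neg (by simpa using hk)]
      omega

/-- The variables of the kind `c` that are read. -/
theorem card_read (c : Fin 3) (p q : ℕ) (hpq : (p, q) = cls c) {d : ℕ} (t : Tree n d) (w : Wts n)
    (N : ℕ) (hN : probes p q t w ≤ N) :
    ∑ i : Fin m, ∑ j : Fin m, (if some ((c, (i, j)) : Key m) ∈
      t.path (fun u v => (key m u v).map Prod.fst) w then (1 : ℝ) else 0) ^ 2 ≤ N := by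
  classical
  set l := t.path (fun u v => (key m u v).map Prod.fst) w with hl
  have h1 := card_path (l.filter fun o => decide (∃ e, o = some ((c, e) : Key m))) N
    ((count_le c p q hpq t w).trans hN) c
  refine le_trans (le_of_eq ?_) h1
  refine Finset.sum_congr rfl fun i _ => Finset.sum_congr rfl fun j _ => ?_
  have e : (some ((c, (i, j)) : Key m) ∈ l.filter fun o => decide (∃ e, o = some ((c, e) : Key m))) ↔
      some ((c, (i, j)) : Key m) ∈ l := by
    rw [List.mem_filter]
    constructor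
    · exact fun h => h.1
    · exact fun h => ⟨h, by simp⟩
  simp only [e]

/-- The number of triangles read. -/
theorem sum_read (h0 : Fin n → Fin n → ℤ) (h : Fin n → Fin n → ZMod Q → ℤ) (hm : m ≤ n) {d : ℕ}
    (t : Tree n d) (a b c : ℕ) (X Y Z : Cfg m Q)
    (ha : probes 0 1 t (WtH m Q h0 h X Y Z) ≤ a) (hb : probes 1 2 t (WtH m Q h0 h X Y Z) ≤ b)
    (hc : probes 0 2 t (WtH m Q h0 h X Y Z) ≤ c) :
    ∑ i, ∑ j, ∑ k, ind (AllRead (placeH (m := m) h0 h) t i j k X Y Z) ≤ tri n a b c := by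
  classical
  set l := t.path (fun u v => (key m u v).map Prod.fst) (WtH m Q h0 h X Y Z) with hl
  set f0 : Fin m → Fin m → ℝ := fun i j => if some ((0, (i, j)) : Key m) ∈ l then 1 else 0 with hf0
  set f1 : Fin m → Fin m → ℝ := fun i j => if some ((1, (i, j)) : Key m) ∈ l then 1 else 0 with hf1
  set f2 : Fin m → Fin m → ℝ := fun i j => if some ((2, (i, j)) : Key m) ∈ l then 1 else 0 with hf2
  have s0 : ∑ i, ∑ j, f0 i j ^ 2 ≤ a := card_read 0 0 1 rfl t _ a ha
  have s1 : ∑ i, ∑ j, f1 i j ^ 2 ≤ b := card_read 1 1 2 rfl t _ b hb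
  have s2 : ∑ i, ∑ j, f2 i j ^ 2 ≤ c := card_read 2 0 2 rfl t _ c hc
  have z0 : ∀ i j, 0 ≤ f0 i j ∧ f0 i j ≤ 1 ∧ f0 i j ^ 2 = f0 i j := fun i j => by
    simp only [hf0]; split_ifs <;> norm_num
  have z1 : ∀ i j, 0 ≤ f1 i j ∧ f1 i j ≤ 1 ∧ f1 i j ^ 2 = f1 i j := fun i j => by
    simp only [hf1]; split_ifs <;> norm_num
  have z2 : ∀ i j, 0 ≤ f2 i j ∧ f2 i j ≤ 1 ∧ f2 i j ^ 2 = f2 i j := fun i j => by
    simp only [hf2]; split_ifs <;> norm_num
  have e : ∑ i, ∑ j, ∑ k, ind (AllRead (placeH (m := m) h0 h) t i j k X Y Z) =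
      ∑ i : Fin m, ∑ j : Fin m, ∑ k : Fin m, f0 i j * f1 j k * f2 k i := by
    refine Finset.sum_congr rfl fun i _ => Finset.sum_congr rfl fun j _ =>
      Finset.sum_congr rfl fun k _ => ?_
    have hl' : t.path (placeH (m := m) h0 h).κ ((placeH (m := m) h0 h).W X Y Z) = l := rfl
    simp only [ind, AllRead, hl', hf0, hf1, hf2]
    by_cases a1 : some ((0, (i, j)) : Key m) ∈ l <;> by_cases a2 : some ((1, (j, k)) : Key m) ∈ l <;>
      by_cases a3 : some ((2, (k, i)) : Key m) ∈ l <;> simp [a1, a2, a3]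
  rw [e]
  have hmn : (m : ℝ) ≤ n := by exact_mod_cast hm
  have n0 : (0 : ℝ) ≤ ∑ i, ∑ j, f0 i j ^ 2 :=
    Finset.sum_nonneg fun _ _ => Finset.sum_nonneg fun _ _ => sq_nonneg _
  have n1 : (0 : ℝ) ≤ ∑ i, ∑ j, f1 i j ^ 2 :=
    Finset.sum_nonneg fun _ _ => Finset.sum_nonneg fun _ _ => sq_nonneg _
  have n2 : (0 : ℝ) ≤ ∑ i, ∑ j, f2 i j ^ 2 :=
    Finset.sum_nonneg fun _ _ => Finset.sum_nonneg fun _ _ => sq_nonneg _
  have hsum0 : ∑ i : Fin m, ∑ j : Fin m, ∑ k : Fin m, f0 i j * f1 j k * f2 k i ≤ n * a := by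
    calc ∑ i : Fin m, ∑ j : Fin m, ∑ k : Fin m, f0 i j * f1 j k * f2 k i ≤
        ∑ i : Fin m, ∑ j : Fin m, ∑ _k : Fin m, f0 i j ^ 2 := by
          refine Finset.sum_le_sum fun i _ => Finset.sum_le_sum fun j _ =>
            Finset.sum_le_sum fun k _ => ?_
          rw [(z0 i j).2.2, mul_assoc]
          have h3 : f1 j k * f2 k i ≤ 1 := by
            have := mul_le_mul (z1 j k).2.1 (z2 k i).2.1 (z2 k i).1 zero_le_one
            linarith
          exact mul_le_of_le_one_right (z0 i j).1 h3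
      _ = m * ∑ i, ∑ j, f0 i j ^ 2 := by
          simp only [Finset.sum_const, Finset.card_univ, Fintype.card_fin, nsmul_eq_mul,
            Finset.mul_sum]
      _ ≤ n * a := mul_le_mul hmn s0 n0 (Nat.cast_nonneg n)
  have hsum1 : ∑ i : Fin m, ∑ j : Fin m, ∑ k : Fin m, f0 i j * f1 j k * f2 k i ≤ n * b := by
    calc ∑ i : Fin m, ∑ j : Fin m, ∑ k : Fin m, f0 i j * f1 j k * f2 k i ≤
        ∑ _i : Fin m, ∑ j : Fin m, ∑ k : Fin m, f1 j k ^ 2 := by
          refine Finset.sum_le_sum fun i _ => Finset.sum_le_sum fun j _ =>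
            Finset.sum_le_sum fun k _ => ?_
          rw [(z1 j k).2.2, mul_comm (f0 i j), mul_assoc]
          have h3 : f0 i j * f2 k i ≤ 1 := by
            have := mul_le_mul (z0 i j).2.1 (z2 k i).2.1 (z2 k i).1 zero_le_one
            linarith
          exact mul_le_of_le_one_right (z1 j k).1 h3
      _ = m * ∑ j, ∑ k, f1 j k ^ 2 := by
          simp only [Finset.sum_const, Finset.card_univ, Fintype.card_fin, nsmul_eq_mul]
      _ ≤ n * b := mul_le_mul hmn s1 n1 (Nat.cast_nonneg n)
  have hsum2 : ∑ i : Fin m, ∑ j : Fin m, ∑ k : Fin m, f0 i j * f1 j k * f2 k i ≤ n * c := by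
    calc ∑ i : Fin m, ∑ j : Fin m, ∑ k : Fin m, f0 i j * f1 j k * f2 k i ≤
        ∑ i : Fin m, ∑ _j : Fin m, ∑ k : Fin m, f2 k i ^ 2 := by
          refine Finset.sum_le_sum fun i _ => Finset.sum_le_sum fun j _ =>
            Finset.sum_le_sum fun k _ => ?_
          rw [(z2 k i).2.2]
          have h3 : f0 i j * f1 j k ≤ 1 := by
            have := mul_le_mul (z0 i j).2.1 (z1 j k).2.1 (z1 j k).1 zero_le_one
            linarith
          exact mul_le_of_le_one_left (z2 k i).1 h3
      _ = m * ∑ k, ∑ i, f2 k i ^ 2 := by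
          rw [Finset.sum_comm (s := (univ : Finset (Fin m))) (t := (univ : Finset (Fin m)))
            (f := fun k i => f2 k i ^ 2)]
          simp only [Finset.sum_const, Finset.card_univ, Fintype.card_fin, nsmul_eq_mul,
            Finset.mul_sum]
      _ ≤ n * c := mul_le_mul hmn s2 n2 (Nat.cast_nonneg n)
  have g0 : ∑ i, ∑ j, f0 i j ≤ a := by
    refine le_trans (le_of_eq ?_) s0
    exact Finset.sum_congr rfl fun i _ => Finset.sum_congr rfl fun j _ => (z0 i j).2.2.symm
  have g1 : ∑ i, ∑ j, f1 i j ≤ b := by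
    refine le_trans (le_of_eq ?_) s1
    exact Finset.sum_congr rfl fun i _ => Finset.sum_congr rfl fun j _ => (z1 i j).2.2.symm
  have g2 : ∑ i, ∑ j, f2 i j ≤ c := by
    refine le_trans (le_of_eq ?_) s2
    exact Finset.sum_congr rfl fun i _ => Finset.sum_congr rfl fun j _ => (z2 i j).2.2.symm
  have q0 : 0 ≤ ∑ i, ∑ j, f0 i j :=
    Finset.sum_nonneg fun i _ => Finset.sum_nonneg fun j _ => (z0 i j).1
  have q1 : 0 ≤ ∑ i, ∑ j, f1 i j :=
    Finset.sum_nonneg fun i _ => Finset.sum_nonneg fun j _ => (z1 i j).1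
  have q2 : 0 ≤ ∑ i, ∑ j, f2 i j :=
    Finset.sum_nonneg fun i _ => Finset.sum_nonneg fun j _ => (z2 i j).1
  have hab : ∑ i : Fin m, ∑ j : Fin m, ∑ k : Fin m, f0 i j * f1 j k * f2 k i ≤ a * b := by
    calc ∑ i : Fin m, ∑ j : Fin m, ∑ k : Fin m, f0 i j * f1 j k * f2 k i ≤
        ∑ i : Fin m, ∑ j : Fin m, f0 i j * ∑ j' : Fin m, ∑ k : Fin m, f1 j' k := by
          refine Finset.sum_le_sum fun i _ => Finset.sum_le_sum fun j _ => ?_
          have h3 : ∑ k : Fin m, f0 i j * f1 j k * f2 k i ≤ f0 i j * ∑ k : Fin m, f1 j k := by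
            rw [Finset.mul_sum]
            refine Finset.sum_le_sum fun k _ => ?_
            exact mul_le_of_le_one_right (mul_nonneg (z0 i j).1 (z1 j k).1) (z2 k i).2.1
          refine h3.trans (mul_le_mul_of_nonneg_left ?_ (z0 i j).1)
          exact Finset.single_le_sum (f := fun j' => ∑ k, f1 j' k)
            (fun j' _ => Finset.sum_nonneg fun k _ => (z1 j' k).1) (Finset.mem_univ j)
      _ = (∑ i, ∑ j, f0 i j) * ∑ j', ∑ k, f1 j' k := by
          simp only [Finset.sum_mul]
      _ ≤ a * b := mul_le_mul g0 g1 q1 (Nat.cast_nonneg a)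
  have hbc : ∑ i : Fin m, ∑ j : Fin m, ∑ k : Fin m, f0 i j * f1 j k * f2 k i ≤ b * c := by
    calc ∑ i : Fin m, ∑ j : Fin m, ∑ k : Fin m, f0 i j * f1 j k * f2 k i =
        ∑ j : Fin m, ∑ k : Fin m, ∑ i : Fin m, f0 i j * f1 j k * f2 k i := by
          rw [Finset.sum_comm]
          refine Finset.sum_congr rfl fun j _ => ?_
          rw [Finset.sum_comm]
      _ ≤ ∑ j : Fin m, ∑ k : Fin m, f1 j k * ∑ k' : Fin m, ∑ i : Fin m, f2 k' i := by
          refine Finset.sum_le_sum fun j _ => Finset.sum_le_sum fun k _ => ?_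
          have h3 : ∑ i : Fin m, f0 i j * f1 j k * f2 k i ≤ f1 j k * ∑ i : Fin m, f2 k i := by
            rw [Finset.mul_sum]
            refine Finset.sum_le_sum fun i _ => ?_
            rw [mul_assoc]
            exact mul_le_of_le_one_left (mul_nonneg (z1 j k).1 (z2 k i).1) (z0 i j).2.1
          refine h3.trans (mul_le_mul_of_nonneg_left ?_ (z1 j k).1)
          exact Finset.single_le_sum (f := fun k' => ∑ i, f2 k' i)
            (fun k' _ => Finset.sum_nonneg fun i _ => (z2 k' i).1) (Finset.mem_univ k)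
      _ = (∑ j, ∑ k, f1 j k) * ∑ k', ∑ i, f2 k' i := by
          simp only [Finset.sum_mul]
      _ ≤ b * c := mul_le_mul g1 g2 q2 (Nat.cast_nonneg b)
  have hac : ∑ i : Fin m, ∑ j : Fin m, ∑ k : Fin m, f0 i j * f1 j k * f2 k i ≤ a * c := by
    calc ∑ i : Fin m, ∑ j : Fin m, ∑ k : Fin m, f0 i j * f1 j k * f2 k i =
        ∑ i : Fin m, ∑ k : Fin m, ∑ j : Fin m, f0 i j * f1 j k * f2 k i := by
          refine Finset.sum_congr rfl fun i _ => ?_
          rw [Finset.sum_comm]
      _ ≤ ∑ i : Fin m, ∑ k : Fin m, f2 k i * ∑ i' : Fin m, ∑ j : Fin m, f0 i' j := by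
          refine Finset.sum_le_sum fun i _ => Finset.sum_le_sum fun k _ => ?_
          have h3 : ∑ j : Fin m, f0 i j * f1 j k * f2 k i ≤ f2 k i * ∑ j : Fin m, f0 i j := by
            rw [Finset.mul_sum]
            refine Finset.sum_le_sum fun j _ => ?_
            have h4 := mul_nonneg (z2 k i).1 (z0 i j).1
            have h5 := mul_le_of_le_one_right h4 (z1 j k).2.1
            linarith
          refine h3.trans (mul_le_mul_of_nonneg_left ?_ (z2 k i).1)
          exact Finset.single_le_sum (f := fun i' => ∑ j, f0 i' j)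
            (fun i' _ => Finset.sum_nonneg fun j _ => (z0 i' j).1) (Finset.mem_univ i)
      _ = (∑ i, ∑ j, f0 i j) * ∑ k, ∑ i, f2 k i := by
          have h6 : ∀ i : Fin m, ∑ k : Fin m, f2 k i * ∑ i' : Fin m, ∑ j : Fin m, f0 i' j =
              (∑ k : Fin m, f2 k i) * ∑ i' : Fin m, ∑ j : Fin m, f0 i' j := fun i => by
            rw [Finset.sum_mul]
          simp only [h6]
          rw [← Finset.sum_mul, Finset.sum_comm, mul_comm]
      _ ≤ a * c := mul_le_mul g0 g2 q2 (Nat.cast_nonneg a)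
  refine le_min ?_ (le_min (le_min hab (le_min hbc hac)) ?_)
  · refine Real.le_sqrt_of_sq_le ((tri_sq f0 f1 f2).trans ?_)
    exact mul_le_mul (mul_le_mul s0 s1 n1 (Nat.cast_nonneg a)) s2 n2 (by positivity)
  · rw [mul_min_of_nonneg _ _ (Nat.cast_nonneg n), mul_min_of_nonneg _ _ (Nat.cast_nonneg n)]
    exact le_min hsum0 (le_min hsum1 hsum2)

/-- The capacity of a tree that reads at most `C` triangles on every path. -/
theorem tree_cap_le {d : ℕ} (P : Place n m Q) (t : Tree n d) (C : ℝ)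
    (hC : ∀ X Y Z, ∑ i, ∑ j, ∑ k, ind (AllRead P t i j k X Y Z) ≤ C) :
    cap (fun X Y Z => t.eval (P.W X Y Z)) ≤ 192 * m * C := by
  classical
  have nn := rd_nonneg P t
  have h1 : cap (fun X Y Z => t.eval (P.W X Y Z)) ≤
      ∑ i, ∑ j, ∑ k, ∑ k' : Fin m, 96 * (rd P t i j k + rd P t i j k') := by
    unfold cap
    refine Finset.sum_le_sum fun i _ => Finset.sum_le_sum fun j _ => Finset.sum_le_sum fun k _ => ?_
    refine le_trans (Finset.sum_le_sum fun k' hk' =>
      cap_one P t i j (Finset.ne_of_mem_erase hk').symm) ?_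
    refine Finset.sum_le_sum_of_subset_of_nonneg (Finset.subset_univ _) fun k' _ _ => ?_
    have := nn i j k
    have := nn i j k'
    linarith
  have h2 : ∑ i, ∑ j, ∑ k, ∑ k' : Fin m, 96 * (rd P t i j k + rd P t i j k') =
      192 * m * ∑ i, ∑ j, ∑ k, rd P t i j k := by
    have e : ∀ i j, ∑ k, ∑ k' : Fin m, 96 * (rd P t i j k + rd P t i j k') =
        192 * m * ∑ k, rd P t i j k := by
      intro i j
      simp only [← Finset.mul_sum, Finset.sum_add_distrib, Finset.sum_const, Finset.card_univ,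
        Fintype.card_fin, nsmul_eq_mul]
      ring
    rw [Finset.mul_sum]
    refine Finset.sum_congr rfl fun i _ => ?_
    rw [Finset.mul_sum]
    exact Finset.sum_congr rfl fun j _ => e i j
  have h3 : ∑ i, ∑ j, ∑ k, rd P t i j k ≤ C := by
    calc ∑ i, ∑ j, ∑ k, rd P t i j k
        = bas (fun X Y Z => ∑ i, ∑ j, ∑ k, ind (AllRead P t i j k X Y Z)) := by
          unfold rd
          simp only [bas_sum]
      _ ≤ bas (fun _ _ _ : Cfg m Q => C) := bas_mono _ _ hC
      _ = C := by rw [bas_const]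
  refine h1.trans (h2.le.trans ?_)
  exact mul_le_mul_of_nonneg_left h3 (by positivity)

/-- The capacity of a tree with few probes in the sides. -/
theorem sides_cap (h0 : Fin n → Fin n → ℤ) (h : Fin n → Fin n → ZMod Q → ℤ) (hm : m ≤ n)
    (hval : ∀ X Y Z : Cfg m Q, (mkH h0 h X Y Z).Valid) (H : Inst n → ℝ) (a b c : ℕ)
    (hH : IsSides a b c H) : cap (GM (mkH (m := m) h0 h) H) ≤ 192 * m * tri n a b c := by
  obtain ⟨d, t, ht⟩ := hH
  have h1 : GM (mkH (m := m) h0 h) H =
      fun X Y Z => (t (fl n)).eval ((placeH (m := m) h0 h).W X Y Z) := by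
    funext X Y Z
    exact (ht _ (hval X Y Z)).1
  rw [h1]
  exact tree_cap_le _ _ _ fun X Y Z => sum_read h0 h hm (t (fl n)) a b c X Y Z
    (ht _ (hval X Y Z)).2.1 (ht _ (hval X Y Z)).2.2.1 (ht _ (hval X Y Z)).2.2.2

end

end Pool.Agent.Helper53.TC5
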